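import Pool.Agent.N418.CZ.Stm

/-!
# Project CZ, common part of CH1, CH2, CH3 (helper572): permutation matrices over arbitrary finite
index types, inclusion and partial trace
-/

set_option autoImplicit false

namespace Pool.Agent.N572.CZ

open Module Matrix

variable {k : ℕ} {α β : Type} [Fintype α] [DecidableEq α] [Fintype β] [DecidableEq β]

/-- operators on the tensor power with factors indexed by `α` -/
abbrev M (k : ℕ) (α : Type) : Type := Matrix (α → Fin k) (α → Fin k) ℝ

/-- the matrix of a permutation -/
noncomputable def P (σ : Equiv.Perm α) : M k α :=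
  Matrix.of fun a b => if b = (fun i => a (σ i)) then 1 else 0

theorem P_apply (σ : Equiv.Perm α) (a b : α → Fin k) :
    P σ a b = if b = (fun i => a (σ i)) then (1 : ℝ) else 0 := rfl

theorem P_mul_apply (σ : Equiv.Perm α) (c : M k α) (a b : α → Fin k) :
    (P σ * c : M k α) a b = c (fun i => a (σ i)) b := by
  rw [Matrix.mul_apply, Finset.sum_eq_single (fun i => a (σ i))]
  · rw [P_apply, if_pos rfl, one_mul]
  · intro x _ hx
    rw [P_apply, if_neg hx, zero_mul]
  · exact fun h => absurd (Finset.mem_univ _) h

theorem mul_P_apply (σ : Equiv.Perm α) (c : M k α) (a b : α → Fin k) :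
    (c * P σ : M k α) a b = c a (fun i => b (σ.symm i)) := by
  rw [Matrix.mul_apply, Finset.sum_eq_single (fun i => b (σ.symm i))]
  · rw [P_apply, if_pos (by simp), mul_one]
  · intro x _ hx
    rw [P_apply, if_neg, mul_zero]
    intro h
    apply hx
    funext i
    rw [h]
    simp
  · exact fun h => absurd (Finset.mem_univ _) h

theorem P_mul (σ τ : Equiv.Perm α) : (P (σ * τ) : M k α) = P σ * P τ := by
  ext1 a b
  rw [P_mul_apply, P_apply, P_apply]
  rfl

theorem P_one : (P (1 : Equiv.Perm α) : M k α) = 1 := by
  ext1 a b
  rw [P_apply, Matrix.one_apply]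
  simp only [Equiv.Perm.coe_one, id, eq_comm]

theorem P_transpose (σ : Equiv.Perm α) : (P σ : M k α)ᵀ = P σ⁻¹ := by
  ext1 a b
  rw [Matrix.transpose_apply, P_apply, P_apply]
  congr 1
  refine propext ⟨fun h => ?_, fun h => ?_⟩
  · rw [h]; funext i; simp
  · rw [h]; funext i; simp

/-- the span of the permutation matrices -/
noncomputable def AA (k : ℕ) (α : Type) [Fintype α] [DecidableEq α] : Submodule ℝ (M k α) :=
  Submodule.span ℝ (Set.range (P (k := k) (α := α)))

theorem P_mem (σ : Equiv.Perm α) : P σ ∈ AA k α := Submodule.subset_span ⟨σ, rfl⟩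

theorem AA_mul {a b : M k α} (ha : a ∈ AA k α) (hb : b ∈ AA k α) : a * b ∈ AA k α := by
  induction ha using Submodule.span_induction with
  | mem x hx =>
    obtain ⟨σ, rfl⟩ := hx
    induction hb using Submodule.span_induction with
    | mem y hy =>
      obtain ⟨τ, rfl⟩ := hy
      rw [← P_mul]
      exact P_mem _
    | zero => rw [mul_zero]; exact Submodule.zero_mem _
    | add y z _ _ hy hz => rw [mul_add]; exact Submodule.add_mem _ hy hz
    | smul c y _ hy => rw [mul_smul_comm]; exact Submodule.smul_mem _ _ hy
  | zero => rw [zero_mul]; exact Submodule.zero_mem _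
  | add y z _ _ hy hz => rw [add_mul]; exact Submodule.add_mem _ hy hz
  | smul c y _ hy => rw [smul_mul_assoc]; exact Submodule.smul_mem _ _ hy

theorem AA_transpose {a : M k α} (ha : a ∈ AA k α) : aᵀ ∈ AA k α := by
  induction ha using Submodule.span_induction with
  | mem x hx =>
    obtain ⟨σ, rfl⟩ := hx
    rw [P_transpose]
    exact P_mem _
  | zero => rw [Matrix.transpose_zero]; exact Submodule.zero_mem _
  | add y z _ _ hy hz => rw [Matrix.transpose_add]; exact Submodule.add_mem _ hy hz
  | smul c y _ hy => rw [Matrix.transpose_smul]; exact Submodule.smul_mem _ _ hy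

/-! ### Inclusion and partial trace -/

/-- the inclusion in one more variable -/
noncomputable def up : M k α →ₗ[ℝ] M k (Option α) where
  toFun c := Matrix.of fun x y => if x none = y none then c (fun i => x (some i))
    (fun i => y (some i)) else 0
  map_add' c d := by
    ext1 x y
    simp only [Matrix.of_apply, Matrix.add_apply]
    split_ifs <;> simp
  map_smul' r c := by
    ext1 x y
    simp only [Matrix.of_apply, Matrix.smul_apply, RingHom.id_apply]
    split_ifs <;> simp

theorem up_apply (c : M k α) (x y : Option α → Fin k) :
    up c x y = if x none = y none then c (fun i => x (some i)) (fun i => y (some i)) else 0 := rfl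

/-- adding a value -/
def cns (i : Fin k) (x : α → Fin k) : Option α → Fin k := fun o => o.elim i x

@[simp] theorem cns_none (i : Fin k) (x : α → Fin k) : cns i x none = i := rfl
@[simp] theorem cns_some (i : Fin k) (x : α → Fin k) (a : α) : cns i x (some a) = x a := rfl

theorem sum_cns {R : Type} [AddCommMonoid R] (F : (Option α → Fin k) → R) :
    ∑ x, F x = ∑ x : α → Fin k, ∑ i : Fin k, F (cns i x) := by
  rw [← Fintype.sum_prod_type' (fun (x : α → Fin k) (i : Fin k) => F (cns i x))]
  refine Fintype.sum_equiv
    ⟨fun x => (fun a => x (some a), x none), fun p => cns p.2 p.1, fun x => ?_, fun p => rfl⟩ _ _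
    fun x => ?_
  · funext o
    cases o <;> rfl
  · congr 1
    funext o
    cases o <;> rfl

/-- the partial trace -/
noncomputable def dn (c : M k (Option α)) : M k α :=
  Matrix.of fun x y => ∑ i : Fin k, c (cns i x) (cns i y)

theorem dn_apply (c : M k (Option α)) (x y : α → Fin k) :
    dn c x y = ∑ i : Fin k, c (cns i x) (cns i y) := rfl

theorem dn_add (c d : M k (Option α)) : dn (c + d) = dn c + dn d := by
  ext1 x y
  simp only [dn_apply, Matrix.add_apply, Finset.sum_add_distrib]

theorem dn_smul (r : ℝ) (c : M k (Option α)) : dn (r • c) = r • dn c := by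
  ext1 x y
  simp only [dn_apply, Matrix.smul_apply, Finset.smul_sum]

theorem up_mul (c d : M k α) : up (c * d) = up c * up d := by
  ext1 x y
  rw [Matrix.mul_apply, sum_cns, up_apply]
  simp only [up_apply, cns_none, cns_some]
  split_ifs with h
  · rw [Matrix.mul_apply]
    refine Finset.sum_congr rfl fun z _ => ?_
    rw [Finset.sum_eq_single (x none)]
    · rw [if_pos rfl, if_pos h]
    · intro i _ hi
      rw [if_neg (Ne.symm hi), zero_mul]
    · exact fun h => absurd (Finset.mem_univ _) h
  · symm
    refine Finset.sum_eq_zero fun z _ => Finset.sum_eq_zero fun i _ => ?_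
    by_cases h1 : x none = i
    · rw [if_neg (fun h2 : i = y none => h (h1.trans h2)), mul_zero]
    · rw [if_neg h1, zero_mul]

theorem up_P (σ : Equiv.Perm α) : up (P σ : M k α) = P (Equiv.optionCongr σ) := by
  ext1 x y
  rw [up_apply, P_apply, P_apply]
  by_cases h : x none = y none
  · rw [if_pos h]
    congr 1
    refine propext ⟨fun h1 => ?_, fun h1 => ?_⟩
    · funext o
      cases o with
      | none => simp [h]
      | some a => simpa using congrFun h1 a
    · funext a
      have := congrFun h1 (some a)
      simpa using this
  · rw [if_neg h, if_neg]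
    intro h1
    have := congrFun h1 none
    simp at this
    exact h this.symm

theorem up_transpose (c : M k α) : (up c)ᵀ = up cᵀ := by
  ext1 x y
  rw [Matrix.transpose_apply, up_apply, up_apply, Matrix.transpose_apply]
  simp only [eq_comm]

theorem trace_up (c : M k α) (d : M k (Option α)) : (up c * d).trace = (c * dn d).trace := by
  rw [Matrix.trace, Matrix.trace, sum_cns]
  refine Finset.sum_congr rfl fun x _ => ?_
  simp only [Matrix.diag_apply]
  rw [Matrix.mul_apply]
  simp only [Matrix.mul_apply, dn_apply, Finset.mul_sum]
  have h1 : ∀ i : Fin k, ∑ j, up c (cns i x) j * d j (cns i x) =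
      ∑ z, c x z * d (cns i z) (cns i x) := by
    intro i
    rw [sum_cns]
    refine Finset.sum_congr rfl fun z _ => ?_
    rw [Finset.sum_eq_single i]
    · rw [up_apply]
      simp
    · intro j _ hj
      rw [up_apply]
      simp only [cns_none]
      rw [if_neg (Ne.symm hj), zero_mul]
    · exact fun h => absurd (Finset.mem_univ _) h
  rw [Finset.sum_congr rfl fun i _ => h1 i, Finset.sum_comm]

theorem dn_P (σ : Equiv.Perm (Option α)) :
    ∃ r : ℝ, dn (P σ : M k (Option α)) = r • P (Equiv.removeNone σ) := by
  have hsome : ∀ a : α, σ (some a) = none → some (Equiv.removeNone σ a) = σ none := fun a h =>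
    Equiv.removeNone_none σ h
  have hsome' : ∀ a b : α, σ (some a) = some b → Equiv.removeNone σ a = b := fun a b h => by
    have := Equiv.removeNone_some σ ⟨b, h⟩
    rw [h] at this
    exact Option.some_injective _ this
  rcases h : σ none with _ | β
  · refine ⟨k, ?_⟩
    ext1 x y
    rw [dn_apply, Matrix.smul_apply, P_apply, smul_eq_mul]
    have h1 : ∀ i : Fin k, (P σ : M k (Option α)) (cns i x) (cns i y) =
        if y = (fun a => x (Equiv.removeNone σ a)) then 1 else 0 := by
      intro i
      rw [P_apply]
      congr 1
      refine propext ⟨fun h2 => ?_, fun h2 => ?_⟩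
      · funext a
        have h3 := congrFun h2 (some a)
        rw [cns_some] at h3
        rw [h3]
        rcases h4 : σ (some a) with _ | b
        · have := hsome a h4
          rw [h] at this
          exact absurd this (by simp)
        · rw [cns_some, hsome' a b h4]
      · funext o
        rcases o with _ | a
        · rw [h]
          rfl
        · rw [cns_some, h2]
          rcases h4 : σ (some a) with _ | b
          · have := hsome a h4
            rw [h] at this
            exact absurd this (by simp)
          · show x (Equiv.removeNone σ a) = cns i x (some b)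
            rw [cns_some, hsome' a b h4]
    rw [Finset.sum_congr rfl fun i _ => h1 i, Finset.sum_const, Finset.card_univ,
      Fintype.card_fin, nsmul_eq_mul]
  · refine ⟨1, ?_⟩
    ext1 x y
    rw [dn_apply, one_smul, P_apply]
    have hval : ∀ a, cns (x β) x (σ (some a)) = x (Equiv.removeNone σ a) := by
      intro a
      rcases h4 : σ (some a) with _ | b
      · have := hsome a h4
        rw [h] at this
        rw [Option.some_injective _ this]
        rfl
      · rw [cns_some, hsome' a b h4]
    rw [Finset.sum_eq_single (x β)]
    · rw [P_apply]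
      congr 1
      refine propext ⟨fun h2 => ?_, fun h2 => ?_⟩
      · funext a
        have h3 := congrFun h2 (some a)
        rw [cns_some] at h3
        rw [h3, hval]
      · funext o
        rcases o with _ | a
        · rw [h]
          rfl
        · rw [cns_some, h2]
          exact (hval a).symm
    · intro i _ hi
      rw [P_apply, if_neg]
      intro h2
      have h3 := congrFun h2 none
      rw [h] at h3
      exact hi h3
    · exact fun h => absurd (Finset.mem_univ _) h

theorem dn_mem {c : M k (Option α)} (hc : c ∈ AA k (Option α)) : dn c ∈ AA k α := by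
  induction hc using Submodule.span_induction with
  | mem x hx =>
    obtain ⟨σ, rfl⟩ := hx
    obtain ⟨r, hr⟩ := dn_P (k := k) σ
    rw [hr]
    exact Submodule.smul_mem _ _ (P_mem _)
  | zero =>
    have : dn (0 : M k (Option α)) = 0 := by
      ext1 x y
      simp [dn_apply]
    rw [this]
    exact Submodule.zero_mem _
  | add y z _ _ hy hz => rw [dn_add]; exact Submodule.add_mem _ hy hz
  | smul c y _ hy => rw [dn_smul]; exact Submodule.smul_mem _ _ hy

theorem up_mem {c : M k α} (hc : c ∈ AA k α) : up c ∈ AA k (Option α) := by
  induction hc using Submodule.span_induction with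
  | mem x hx =>
    obtain ⟨σ, rfl⟩ := hx
    rw [up_P]
    exact P_mem _
  | zero => rw [map_zero]; exact Submodule.zero_mem _
  | add y z _ _ hy hz => rw [map_add]; exact Submodule.add_mem _ hy hz
  | smul c y _ hy => rw [map_smul]; exact Submodule.smul_mem _ _ hy

/-- the swap of the two last points -/
def sw (α : Type) [DecidableEq α] : Equiv.Perm (Option (Option α)) := Equiv.swap none (some none)

theorem dn_swap (c : M k (Option α)) : dn (P (sw α) * up c * P (sw α)) = up (dn c) := by
  ext1 x y
  rw [dn_apply, up_apply]
  have h1 : ∀ i : Fin k, (P (sw α) * up c * P (sw α) : M k (Option (Option α))) (cns i x) (cns i y) =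
      if x none = y none then c (cns i fun a => x (some a)) (cns i fun a => y (some a)) else 0 := by
    intro i
    rw [mul_P_apply, P_mul_apply, up_apply]
    have h2 : (sw α).symm = sw α := Equiv.symm_swap _ _
    rw [h2]
    have h3 : sw α none = some none := Equiv.swap_apply_left _ _
    have h4 : sw α (some none) = none := Equiv.swap_apply_right _ _
    have h5 : ∀ a : α, sw α (some (some a)) = some (some a) := fun a =>
      Equiv.swap_apply_of_ne_of_ne (by simp) (by simp)
    have h6 : ∀ z : Option α → Fin k, (fun o : Option α => cns i z (sw α (some o))) =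
        cns i fun a => z (some a) := by
      intro z
      funext o
      rcases o with _ | a
      · rw [h4]
        rfl
      · rw [h5]
        rfl
    rw [h6, h6, h3]
    rfl
  rw [Finset.sum_congr rfl fun i _ => h1 i]
  split_ifs with h
  · rfl
  · simp

/-- the element `∑ Tr(P g⁻¹) P g` -/
noncomputable def zt (k : ℕ) (α : Type) [Fintype α] [DecidableEq α] : M k α :=
  ∑ g : Equiv.Perm α, (P g⁻¹ : M k α).trace • P g

theorem zt_mul {d : M k α} (hd : d ∈ AA k α) :
    ∑ g : Equiv.Perm α, (d * P g⁻¹).trace • (P g : M k α) = zt k α * d := by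
  induction hd using Submodule.span_induction with
  | mem x hx =>
    obtain ⟨h, rfl⟩ := hx
    rw [zt, Finset.sum_mul]
    rw [← Equiv.sum_comp (Equiv.mulRight h) fun g : Equiv.Perm α =>
      (P h * P g⁻¹ : M k α).trace • (P g : M k α)]
    refine Finset.sum_congr rfl fun g _ => ?_
    rw [Equiv.coe_mulRight, ← P_mul, smul_mul_assoc, ← P_mul, _root_.mul_inv_rev, mul_inv_cancel_left]
  | zero => simp
  | add y z _ _ hy hz =>
    rw [mul_add, ← hy, ← hz, ← Finset.sum_add_distrib]
    refine Finset.sum_congr rfl fun g _ => ?_
    rw [add_mul, Matrix.trace_add, add_smul]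
  | smul c y _ hy =>
    rw [mul_smul_comm, ← hy, Finset.smul_sum]
    refine Finset.sum_congr rfl fun g _ => ?_
    rw [smul_mul_assoc, Matrix.trace_smul, smul_eq_mul, mul_smul]

end Pool.Agent.N572.CZ
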