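import Pool.Agent.N572.CZ.Base

/-!
# Project CZ, part CH3 (helper572)
-/

set_option autoImplicit false

namespace Pool.Agent.N572.CZ

open Module Matrix Pool.Agent.N418.CZ

open scoped TensorProduct

section gen

variable {k : ℕ} {α β : Type} [Fintype α] [DecidableEq α] [Fintype β] [DecidableEq β]

/-- left multiplication -/
noncomputable def lm (U : M k α) (hU : U ∈ AA k α) : AA k α →ₗ[ℝ] AA k α :=
  (LinearMap.mulLeft ℝ U).restrict fun _ ha => AA_mul hU ha

/-- right multiplication -/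
noncomputable def rm (U : M k α) (hU : U ∈ AA k α) : AA k α →ₗ[ℝ] AA k α :=
  (LinearMap.mulRight ℝ U).restrict fun _ ha => AA_mul ha hU

theorem lm_coe (U : M k α) (hU : U ∈ AA k α) (x : AA k α) : ((lm U hU x : AA k α) : M k α) =
    U * x := rfl

theorem rm_coe (U : M k α) (hU : U ∈ AA k α) (x : AA k α) : ((rm U hU x : AA k α) : M k α) =
    x * U := rfl

theorem ltrace_eq (U : M k α) (hU : U ∈ AA k α) :
    ltrace (AA k α) U = LinearMap.trace ℝ (AA k α) (lm U hU) := by
  unfold ltrace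
  rw [dif_pos fun _ ha => AA_mul hU ha]
  rfl

/-- transposition -/
noncomputable def tp : AA k α ≃ₗ[ℝ] AA k α where
  toFun x := ⟨(x : M k α)ᵀ, AA_transpose x.2⟩
  invFun x := ⟨(x : M k α)ᵀ, AA_transpose x.2⟩
  map_add' x y := Subtype.ext (Matrix.transpose_add _ _)
  map_smul' c x := Subtype.ext (Matrix.transpose_smul _ _)
  left_inv x := Subtype.ext (Matrix.transpose_transpose _)
  right_inv x := Subtype.ext (Matrix.transpose_transpose _)

theorem tp_coe (x : AA k α) : ((tp x : AA k α) : M k α) = (x : M k α)ᵀ := rfl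
theorem tp_symm_coe (x : AA k α) : ((tp.symm x : AA k α) : M k α) = (x : M k α)ᵀ := rfl

theorem trace_rm (σ : Equiv.Perm α) :
    LinearMap.trace ℝ (AA k α) (rm (P σ⁻¹) (P_mem _)) =
      LinearMap.trace ℝ (AA k α) (lm (P σ) (P_mem _)) := by
  rw [← LinearMap.trace_conj' (lm (P σ) (P_mem _)) tp]
  congr 1
  ext1 x
  refine Subtype.ext ?_
  rw [LinearEquiv.conj_apply, LinearMap.comp_apply, LinearMap.comp_apply, LinearEquiv.coe_coe,
    LinearEquiv.coe_coe, tp_coe, lm_coe, tp_symm_coe, Matrix.transpose_mul,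
    Matrix.transpose_transpose, P_transpose, rm_coe]

/-- averages are idempotent -/
theorem avg_idem {G E : Type} [Group G] [Fintype G] [Semiring E] [Algebra ℝ E] (Q : G → E)
    (hQ : ∀ g h, Q (g * h) = Q g * Q h) :
    IsIdempotentElem ((Fintype.card G : ℝ)⁻¹ • ∑ g, Q g) := by
  have hc : (Fintype.card G : ℝ) ≠ 0 := by
    have : 0 < Fintype.card G := Fintype.card_pos
    positivity
  have h1 : (∑ g, Q g) * (∑ g, Q g) = (Fintype.card G : ℝ) • ∑ g, Q g := by
    rw [Finset.mul_sum]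
    have : ∀ h, (∑ g, Q g) * Q h = ∑ g, Q g := by
      intro h
      rw [Finset.sum_mul, ← Equiv.sum_comp (Equiv.mulRight h) Q]
      refine Finset.sum_congr rfl fun g _ => ?_
      rw [Equiv.coe_mulRight, hQ]
    rw [Finset.sum_congr rfl fun h _ => this h, Finset.sum_const, Finset.card_univ,
      ← Nat.cast_smul_eq_nsmul ℝ]
  unfold IsIdempotentElem
  rw [smul_mul_smul_comm, h1, smul_smul]
  congr 1
  field_simp

theorem trace_idem {X : Type} [AddCommGroup X] [Module ℝ X] [FiniteDimensional ℝ X]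
    (f : X →ₗ[ℝ] X) (h : IsIdempotentElem f) :
    LinearMap.trace ℝ X f = (finrank ℝ (LinearMap.range f) : ℝ) :=
  (LinearMap.IsIdempotentElem.isProj_range f h).trace

/-- abstract form of the inequality -/
theorem bound {G W Y : Type} [Group G] [Fintype G] [AddCommGroup W] [Module ℝ W]
    [FiniteDimensional ℝ W] [AddCommGroup Y] [Module ℝ Y] [FiniteDimensional ℝ Y]
    (r l : G → (W →ₗ[ℝ] W)) (hr : ∀ g h, r (g * h) = (r g).comp (r h))
    (hl : ∀ g h, l (g * h) = (l g).comp (l h)) (K : Y →ₗ[ℝ] W ⊗[ℝ] W) (Φ : W ⊗[ℝ] W →ₗ[ℝ] Y)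
    (hK : ∀ x y, ∑ g, (r g x) ⊗ₜ[ℝ] (l g y) = K (Φ (x ⊗ₜ[ℝ] y))) :
    (∑ g, LinearMap.trace ℝ W (r g) * LinearMap.trace ℝ W (l g)) / (Fintype.card G : ℝ) ≤
      finrank ℝ Y := by
  let Q : G → (W ⊗[ℝ] W →ₗ[ℝ] W ⊗[ℝ] W) := fun g => TensorProduct.map (r g) (l g)
  have hQmul : ∀ g h, Q (g * h) = Q g * Q h := by
    intro g h
    show TensorProduct.map (r (g * h)) (l (g * h)) =
      (TensorProduct.map (r g) (l g)).comp (TensorProduct.map (r h) (l h))
    rw [hr, hl, TensorProduct.map_comp]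
  have hidem := avg_idem Q hQmul
  have htr : LinearMap.trace ℝ (W ⊗[ℝ] W) ((Fintype.card G : ℝ)⁻¹ • ∑ g, Q g) =
      (∑ g, LinearMap.trace ℝ W (r g) * LinearMap.trace ℝ W (l g)) / (Fintype.card G : ℝ) := by
    rw [map_smul, map_sum, smul_eq_mul, div_eq_inv_mul]
    congr 1
    refine Finset.sum_congr rfl fun g _ => ?_
    exact LinearMap.trace_tensorProduct' (r g) (l g)
  have htr2 := trace_idem ((Fintype.card G : ℝ)⁻¹ • ∑ g, Q g) hidem
  have hfac : (Fintype.card G : ℝ)⁻¹ • ∑ g, Q g = (Fintype.card G : ℝ)⁻¹ • (K.comp Φ) := by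
    congr 1
    refine TensorProduct.ext' fun x y => ?_
    rw [LinearMap.comp_apply, ← hK, LinearMap.sum_apply]
    rfl
  have hrange : LinearMap.range ((Fintype.card G : ℝ)⁻¹ • ∑ g, Q g) ≤ LinearMap.range K := by
    rw [hfac]
    rintro _ ⟨z, rfl⟩
    exact ⟨(Fintype.card G : ℝ)⁻¹ • Φ z, by rw [map_smul]; rfl⟩
  rw [← htr, htr2]
  exact_mod_cast (Submodule.finrank_mono hrange).trans (LinearMap.finrank_range_le K)

/-- every functional on `AA` is a trace functional -/
theorem exists_dual (φ : AA k α →ₗ[ℝ] ℝ) :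
    ∃ u : AA k α, ∀ x : AA k α, φ x = ((u : M k α)ᵀ * (x : M k α)).trace := by
  let B : AA k α →ₗ[ℝ] (AA k α →ₗ[ℝ] ℝ) := LinearMap.mk₂ ℝ
    (fun u x : AA k α => ((u : M k α)ᵀ * (x : M k α)).trace)
    (fun u v x => by simp [add_mul])
    (fun c u x => by simp)
    (fun u x y => by simp [mul_add])
    (fun c u x => by simp)
  have hinj : Function.Injective B := by
    rw [injective_iff_map_eq_zero]
    intro u hu
    have h1 : ((u : M k α)ᵀ * (u : M k α)).trace = 0 := by
      have := LinearMap.congr_fun hu u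
      exact this
    have h2 : ((u : M k α)ᵀ * (u : M k α)).trace = ∑ x, ∑ y, (u : M k α) y x ^ 2 := by
      rw [Matrix.trace]
      refine Finset.sum_congr rfl fun x _ => ?_
      rw [Matrix.diag_apply, Matrix.mul_apply]
      refine Finset.sum_congr rfl fun y _ => ?_
      rw [Matrix.transpose_apply]
      ring
    rw [h2, Finset.sum_eq_zero_iff_of_nonneg fun _ _ => Finset.sum_nonneg fun _ _ => sq_nonneg _]
      at h1
    refine Subtype.ext ?_
    ext1 y x
    have h3 := h1 x (Finset.mem_univ x)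
    rw [Finset.sum_eq_zero_iff_of_nonneg fun _ _ => sq_nonneg _] at h3
    exact pow_eq_zero_iff two_ne_zero |>.1 (h3 y (Finset.mem_univ y))
  have hsurj : Function.Surjective B :=
    (LinearMap.injective_iff_surjective_of_finrank_eq_finrank
      (Subspace.dual_finrank_eq (K := ℝ) (V := AA k α)).symm).1 hinj
  obtain ⟨u, hu⟩ := hsurj φ
  exact ⟨u, fun x => by rw [← hu]; rfl⟩

/-- the key identity -/
theorem key_id (u x w y : M k (Option α)) (hu : u ∈ AA k (Option α)) (hx : x ∈ AA k (Option α)) :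
    ∑ g : Equiv.Perm α, (uᵀ * (x * P (Equiv.optionCongr g)⁻¹)).trace *
      (wᵀ * (P (Equiv.optionCongr g) * y)).trace =
    (up (wᵀ * up (zt k α)) * P (sw α) * up uᵀ * (up x * P (sw α) * up y)).trace := by
  have hd : dn (uᵀ * x) ∈ AA k α := dn_mem (AA_mul (AA_transpose hu) hx)
  have h1 : ∀ g : Equiv.Perm α, (uᵀ * (x * P (Equiv.optionCongr g)⁻¹)).trace *
      (wᵀ * (P (Equiv.optionCongr g) * y)).trace =
      (wᵀ * (up ((dn (uᵀ * x) * P g⁻¹).trace • P g) * y)).trace := by
    intro g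
    have h2 : (Equiv.optionCongr g)⁻¹ = Equiv.optionCongr g⁻¹ := rfl
    rw [h2, ← mul_assoc, Matrix.trace_mul_comm, ← up_P, trace_up, Matrix.trace_mul_comm, map_smul,
      up_P, smul_mul_assoc, mul_smul_comm, Matrix.trace_smul, smul_eq_mul]
  rw [Finset.sum_congr rfl fun g _ => h1 g, ← Matrix.trace_sum, ← Finset.mul_sum, ← Finset.sum_mul,
    ← map_sum, zt_mul hd, up_mul]
  have h3 : up (wᵀ * up (zt k α)) * P (sw α) * up uᵀ * (up x * P (sw α) * up y) =
      (up (wᵀ * up (zt k α)) * (P (sw α) * up (uᵀ * x) * P (sw α))) * up y := by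
    rw [up_mul uᵀ x]
    simp only [mul_assoc]
  have h4 : ((up (wᵀ * up (zt k α)) * (P (sw α) * up (uᵀ * x) * P (sw α))) * up y).trace =
      (wᵀ * (up (zt k α) * up (dn (uᵀ * x)) * y)).trace := by
    rw [Matrix.trace_mul_comm, ← mul_assoc, ← up_mul, trace_up, dn_swap, mul_assoc y,
      Matrix.trace_mul_comm y]
    simp only [mul_assoc]
  rw [h3, h4]

/-- the inequality -/
theorem ch3_gen : (∑ g : Equiv.Perm α,
      LinearMap.trace ℝ (AA k (Option α)) (lm (P (Equiv.optionCongr g)) (P_mem _)) ^ 2) /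
      (Fintype.card (Equiv.Perm α) : ℝ) ≤ finrank ℝ (AA k (Option (Option α))) := by
  classical
  have e0 : ∀ g h : Equiv.Perm α,
      Equiv.optionCongr (g * h) = Equiv.optionCongr g * Equiv.optionCongr h := by
    intro g h
    ext o
    rcases o with _ | a <;> simp
  -- the factorisation
  let b := Module.finBasis ℝ (AA k (Option α))
  choose u hu using fun p => exists_dual (b.coord p)
  have hb : ∀ z : AA k (Option α), z = ∑ p, (((u p : M k (Option α))ᵀ * (z : M k (Option α))).trace)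
      • b p := by
    intro z
    conv_lhs => rw [← b.sum_repr z]
    refine Finset.sum_congr rfl fun p _ => ?_
    rw [← hu p z]
    rfl
  let Kf : AA k (Option (Option α)) →ₗ[ℝ] AA k (Option α) ⊗[ℝ] AA k (Option α) :=
    ∑ p, ∑ q, (LinearMap.toSpanSingleton ℝ _ (b p ⊗ₜ[ℝ] b q)).comp
      (((Matrix.traceLinearMap (Option (Option α) → Fin k) ℝ ℝ).comp
        (LinearMap.mulLeft ℝ (up ((u q : M k (Option α))ᵀ * up (zt k α)) * P (sw α) *
          up (u p : M k (Option α))ᵀ))).comp (AA k (Option (Option α))).subtype)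
  let Φ : AA k (Option α) ⊗[ℝ] AA k (Option α) →ₗ[ℝ] AA k (Option (Option α)) := TensorProduct.lift (LinearMap.mk₂ ℝ
    (fun x y : AA k (Option α) => (⟨up (x : M k (Option α)) * P (sw α) * up (y : M k (Option α)),
      AA_mul (AA_mul (up_mem x.2) (P_mem _)) (up_mem y.2)⟩ : AA k (Option (Option α))))
    (fun x y z => Subtype.ext (by simp [add_mul]))
    (fun c x y => Subtype.ext (by simp))
    (fun x y z => Subtype.ext (by simp [mul_add]))
    (fun c x y => Subtype.ext (by simp)))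
  have hKf : ∀ m : AA k (Option (Option α)), Kf m = ∑ p, ∑ q,
      ((up ((u q : M k (Option α))ᵀ * up (zt k α)) * P (sw α) *
          up (u p : M k (Option α))ᵀ) * (m : M k (Option (Option α)))).trace •
        (b p ⊗ₜ[ℝ] b q) := by
    intro m
    simp only [Kf, LinearMap.sum_apply]
    rfl
  have hmain := bound (fun g : Equiv.Perm α => rm (P (Equiv.optionCongr g)⁻¹) (P_mem _))
    (fun g : Equiv.Perm α => lm (P (Equiv.optionCongr g)) (P_mem _)) (by
      intro g h
      ext1 x
      refine Subtype.ext ?_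
      rw [LinearMap.comp_apply, rm_coe, rm_coe, rm_coe, e0, _root_.mul_inv_rev, P_mul, mul_assoc])
    (by
      intro g h
      ext1 x
      refine Subtype.ext ?_
      rw [LinearMap.comp_apply, lm_coe, lm_coe, lm_coe, e0, P_mul, mul_assoc]) Kf Φ (by
      intro x y
      rw [hKf]
      have hΦ : ((Φ (x ⊗ₜ[ℝ] y) : AA k (Option (Option α))) : M k (Option (Option α))) =
          up (x : M k (Option α)) * P (sw α) * up (y : M k (Option α)) := rfl
      have e1 : ∀ g : Equiv.Perm α, (rm (P (Equiv.optionCongr g)⁻¹) (P_mem _) x) ⊗ₜ[ℝ]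
          (lm (P (Equiv.optionCongr g)) (P_mem _) y) = ∑ p, ∑ q,
          (((u p : M k (Option α))ᵀ * ((x : M k (Option α)) * P (Equiv.optionCongr g)⁻¹)).trace *
          ((u q : M k (Option α))ᵀ * (P (Equiv.optionCongr g) * (y : M k (Option α)))).trace) •
          (b p ⊗ₜ[ℝ] b q) := by
        intro g
        rw [hb (rm _ _ x), hb (lm _ _ y), TensorProduct.sum_tmul]
        refine Finset.sum_congr rfl fun p _ => ?_
        rw [TensorProduct.tmul_sum]
        refine Finset.sum_congr rfl fun q _ => ?_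
        rw [TensorProduct.smul_tmul_smul, rm_coe, lm_coe]
      rw [Finset.sum_congr rfl fun g _ => e1 g, Finset.sum_comm]
      refine Finset.sum_congr rfl fun p _ => ?_
      rw [Finset.sum_comm]
      refine Finset.sum_congr rfl fun q _ => ?_
      rw [← Finset.sum_smul, key_id _ _ _ _ (u p).2 x.2, hΦ])
  refine le_trans (le_of_eq ?_) hmain
  congr 1
  refine Finset.sum_congr rfl fun g _ => ?_
  rw [trace_rm, sq]

end gen

section re

variable {k : ℕ} {α β : Type} [Fintype α] [DecidableEq α] [Fintype β] [DecidableEq β]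

/-- reindexing -/
noncomputable def RE (k : ℕ) (e : α ≃ β) : M k α ≃ₗ[ℝ] M k β :=
  Matrix.reindexLinearEquiv ℝ ℝ (Equiv.arrowCongr e (Equiv.refl (Fin k)))
    (Equiv.arrowCongr e (Equiv.refl (Fin k)))

theorem RE_apply (e : α ≃ β) (c : M k α) (x y : β → Fin k) :
    RE k e c x y = c (fun i => x (e i)) (fun i => y (e i)) := rfl

theorem RE_P (e : α ≃ β) (σ : Equiv.Perm α) : RE k e (P σ) = P (e.permCongr σ) := by
  ext1 x y
  rw [RE_apply, P_apply, P_apply]
  congr 1
  refine propext ⟨fun h => ?_, fun h => ?_⟩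
  · funext i
    have := congrFun h (e.symm i)
    simpa [Equiv.permCongr_apply] using this
  · funext i
    have := congrFun h (e i)
    simpa [Equiv.permCongr_apply] using this

theorem RE_mul (e : α ≃ β) (c d : M k α) : RE k e (c * d) = RE k e c * RE k e d :=
  (Matrix.reindexLinearEquiv_mul ℝ ℝ _ _ _ c d).symm

theorem RE_map (e : α ≃ β) : (AA k α).map (RE k e : M k α →ₗ[ℝ] M k β) = AA k β := by
  unfold AA
  rw [Submodule.map_span]
  congr 1
  ext c
  constructor
  · rintro ⟨_, ⟨σ, rfl⟩, rfl⟩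
    exact ⟨e.permCongr σ, (RE_P e σ).symm⟩
  · rintro ⟨σ, rfl⟩
    refine ⟨P (e.permCongr.symm σ), ⟨_, rfl⟩, ?_⟩
    rw [LinearEquiv.coe_coe, RE_P, Equiv.apply_symm_apply]

/-- reindexing of `AA` -/
noncomputable def REA (k : ℕ) (e : α ≃ β) : AA k α ≃ₗ[ℝ] AA k β :=
  LinearEquiv.ofSubmodules (RE k e) (AA k α) (AA k β) (RE_map e)

theorem REA_coe (e : α ≃ β) (x : AA k α) : ((REA k e x : AA k β) : M k β) = RE k e x := rfl

theorem trace_lm_re (e : α ≃ β) (σ : Equiv.Perm α) :
    LinearMap.trace ℝ (AA k β) (lm (P (e.permCongr σ)) (P_mem _)) =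
      LinearMap.trace ℝ (AA k α) (lm (P σ) (P_mem _)) := by
  rw [← LinearMap.trace_conj' (lm (P σ) (P_mem _)) (REA k e)]
  congr 1
  ext1 x
  refine Subtype.ext ?_
  rw [LinearEquiv.conj_apply, LinearMap.comp_apply, LinearMap.comp_apply, LinearEquiv.coe_coe,
    LinearEquiv.coe_coe, REA_coe, lm_coe, lm_coe, RE_mul, RE_P, ← REA_coe,
    LinearEquiv.apply_symm_apply]

theorem finrank_re (e : α ≃ β) : finrank ℝ (AA k α) = finrank ℝ (AA k β) :=
  LinearEquiv.finrank_eq (REA k e)

end re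

/-- CH3 -/
theorem t_CH3 : S_CH3 := by
  intro k n
  have h := ch3_gen (k := k) (α := Fin n)
  have e1 : ∀ g : Equiv.Perm (Fin n), ltrace (A k (n + 1)) (Pi (ext1 g)) =
      LinearMap.trace ℝ (AA k (Option (Fin n))) (lm (P (Equiv.optionCongr g)) (P_mem _)) := by
    intro g
    rw [← trace_lm_re finSuccEquivLast.symm (Equiv.optionCongr g), ← ltrace_eq]
    rfl
  have e2 : finrank ℝ (A k (n + 2)) = finrank ℝ (AA k (Option (Option (Fin n)))) := by
    have := finrank_re (k := k) (α := Option (Option (Fin n))) (β := Fin (n + 2))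
      ((Equiv.optionCongr finSuccEquivLast.symm).trans finSuccEquivLast.symm)
    exact this.symm
  rw [e2, Finset.sum_congr rfl fun g _ => by rw [e1 g]]
  rw [Fintype.card_perm, Fintype.card_fin] at h
  exact h

end Pool.Agent.N572.CZ
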