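import Pool.Agent.N418.CZ.Stm
import Pool.Agent.Helper58.EN.JX

/-!
# Project CZ, part RAZ (helper572): a central polynomial alternating in `k^2` variables
-/

set_option autoImplicit false

namespace Pool.Agent.N572.CZ.RAZ

open Module Pool.Agent.N418.CZ Pool.Agent.Helper58.EN

section pol

variable {k : ℕ} {α β : Type}

theorem mon_mem (l : List α) : (fun x : α → Mk k => (l.map x).prod) ∈ PolM k α (l : Multiset α) :=
  Submodule.subset_span ⟨l, rfl, rfl⟩

theorem pol_one : (fun _ : α → Mk k => (1 : Mk k)) ∈ PolM k α 0 := by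
  have := mon_mem (k := k) ([] : List α)
  simpa using this

theorem pol_var (a : α) : (fun x : α → Mk k => x a) ∈ PolM k α {a} := by
  have := mon_mem (k := k) ([a] : List α)
  simpa using this

theorem pol_mul {s t : Multiset α} {f g : (α → Mk k) → Mk k} (hf : f ∈ PolM k α s)
    (hg : g ∈ PolM k α t) : (fun x => f x * g x) ∈ PolM k α (s + t) := by
  show f * g ∈ PolM k α (s + t)
  unfold PolM at hf
  induction hf using Submodule.span_induction with
  | mem f hf =>
    obtain ⟨l, rfl, rfl⟩ := hf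
    unfold PolM at hg
    induction hg using Submodule.span_induction with
    | mem g hg =>
      obtain ⟨l', rfl, rfl⟩ := hg
      refine Submodule.subset_span ⟨l ++ l', rfl, ?_⟩
      funext x
      simp
    | zero => rw [mul_zero]; exact Submodule.zero_mem _
    | add f g _ _ hf hg => rw [mul_add]; exact Submodule.add_mem _ hf hg
    | smul c f _ hf => rw [mul_smul_comm]; exact Submodule.smul_mem _ _ hf
  | zero => rw [zero_mul]; exact Submodule.zero_mem _
  | add f g _ _ hf hg => rw [add_mul]; exact Submodule.add_mem _ hf hg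
  | smul c f _ hf => rw [smul_mul_assoc]; exact Submodule.smul_mem _ _ hf

theorem pol_congr {s t : Multiset α} {f : (α → Mk k) → Mk k} (hf : f ∈ PolM k α s) (h : s = t) :
    f ∈ PolM k α t := h ▸ hf

theorem pol_prod : ∀ (n : ℕ) (g : Fin n → (α → Mk k) → Mk k) (s : Fin n → Multiset α),
    (∀ i, g i ∈ PolM k α (s i)) →
    (fun x => (List.ofFn fun i => g i x).prod) ∈ PolM k α (∑ i, s i) := by
  intro n
  induction n with
  | zero =>
    intro g s _
    simpa using pol_one
  | succ n ih =>
    intro g s h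
    rw [Fin.sum_univ_succ]
    simp only [List.ofFn_succ, List.prod_cons]
    exact pol_mul (h 0) (ih _ _ fun i => h i.succ)

theorem pol_sum {ι : Type} (S : Finset ι) (s : Multiset α) (g : ι → (α → Mk k) → Mk k)
    (h : ∀ i ∈ S, g i ∈ PolM k α s) : (fun x => ∑ i ∈ S, g i x) ∈ PolM k α s := by
  have : (fun x => ∑ i ∈ S, g i x) = ∑ i ∈ S, g i := by
    funext x
    rw [Finset.sum_apply]
  rw [this]
  exact Submodule.sum_mem _ h

theorem pol_zsmul {s : Multiset α} {f : (α → Mk k) → Mk k} (hf : f ∈ PolM k α s) (c : ℤ) :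
    (fun x => c • f x) ∈ PolM k α s := by
  have h : (fun x => c • f x) = (c : ℝ) • f := by
    funext x
    rw [Pi.smul_apply, Int.cast_smul_eq_zsmul]
  rw [h]
  exact Submodule.smul_mem _ _ hf

theorem pol_sub {s : Multiset α} {f g : (α → Mk k) → Mk k} (hf : f ∈ PolM k α s)
    (hg : g ∈ PolM k α s) : (fun x => f x - g x) ∈ PolM k α s := Submodule.sub_mem _ hf hg

theorem pol_map (e : α → β) {s : Multiset α} {f : (α → Mk k) → Mk k} (hf : f ∈ PolM k α s) :
    (fun x : β → Mk k => f fun a => x (e a)) ∈ PolM k β (s.map e) := by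
  unfold PolM at hf
  induction hf using Submodule.span_induction with
  | mem f hf =>
    obtain ⟨l, rfl, rfl⟩ := hf
    refine Submodule.subset_span ⟨l.map e, by simp, ?_⟩
    funext x
    rw [List.map_map]
    rfl
  | zero => exact Submodule.zero_mem _
  | add f g _ _ hf hg => exact Submodule.add_mem _ hf hg
  | smul c f _ hf => exact Submodule.smul_mem _ _ hf

end pol

section poly

variable {k m : ℕ}

/-- the indices of the variables -/
abbrev Vr (m : ℕ) : Type := Fin 5 × Fin (m + 1)

/-- the commutators -/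
def XX (x : Vr m → Mk k) (i : Fin (m + 1)) : Mk k := x (0, i) * x (1, i) - x (1, i) * x (0, i)

/-- the Capelli polynomial -/
noncomputable def CC (x : Vr m → Mk k) : Mk k :=
  rzCap (fun i => x (4, i)) (fun i => x (3, i))

/-- the polynomial -/
noncomputable def FF (x : Vr m → Mk k) : Mk k :=
  rzT (XX x) (fun i => x (2, i)) (x (0, 0) * CC x * x (1, 0))

theorem XX_mem (i : Fin (m + 1)) :
    (fun x : Vr m → Mk k => XX x i) ∈ PolM k (Vr m) ({(0, i)} + {(1, i)}) :=
  pol_sub (pol_mul (pol_var _) (pol_var _))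
    (pol_congr (pol_mul (pol_var _) (pol_var _)) (add_comm _ _))

theorem CC_mem : (fun x : Vr m → Mk k => CC x) ∈
    PolM k (Vr m) (∑ i : Fin (m + 1), ({(3, i)} + {(4, i)})) := by
  have h : (fun x : Vr m → Mk k => CC x) = fun x => ∑ σ : Equiv.Perm (Fin (m + 1)),
      (Equiv.Perm.sign σ : ℤ) • (List.ofFn (fun i => x (3, σ i) * x (4, i))).prod := by
    funext x
    exact rzCap_apply _ _
  rw [h]
  refine pol_sum _ _ _ fun σ _ => pol_zsmul ?_ _
  refine pol_congr (pol_prod (m + 1) (fun i x => x (3, σ i) * x (4, i))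
    (fun i => {(3, σ i)} + {(4, i)}) fun i => pol_mul (pol_var _) (pol_var _)) ?_
  rw [Finset.sum_add_distrib, Finset.sum_add_distrib]
  congr 1
  exact Equiv.sum_comp σ fun i => ({((3 : Fin 5), i)} : Multiset (Vr m))

theorem total (σ : Equiv.Perm (Fin (m + 1))) :
    (({((2 : Fin 5), σ.symm 0)} + ∑ i, if σ.symm 0 < i then
        (({((0 : Fin 5), σ i)} + {((1 : Fin 5), σ i)}) + {((2 : Fin 5), i)}) else 0) +
      (({((0 : Fin 5), (0 : Fin (m + 1)))} +
        ∑ i : Fin (m + 1), ({((3 : Fin 5), i)} + {((4 : Fin 5), i)})) +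
        {((1 : Fin 5), (0 : Fin (m + 1)))})) +
      (∑ i, if i < σ.symm 0 then
        (({((0 : Fin 5), σ i)} + {((1 : Fin 5), σ i)}) + {((2 : Fin 5), i)}) else 0) =
    (Finset.univ : Finset (Vr m)).val := by
  set G : Fin (m + 1) → Multiset (Vr m) := fun i =>
    ({((0 : Fin 5), σ i)} + {((1 : Fin 5), σ i)}) + {((2 : Fin 5), i)} with hG
  have h1 : G (σ.symm 0) + ((∑ i, if σ.symm 0 < i then G i else 0) +
      ∑ i, if i < σ.symm 0 then G i else 0) = ∑ i, G i := by
    rw [← Finset.sum_add_distrib, ← Finset.add_sum_erase _ _ (Finset.mem_univ (σ.symm 0)),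
      ← Finset.add_sum_erase _ (fun i => G i) (Finset.mem_univ (σ.symm 0))]
    rw [if_neg (lt_irrefl _), add_zero, zero_add]
    congr 1
    refine Finset.sum_congr rfl fun i hi => ?_
    rw [Finset.mem_erase] at hi
    rcases lt_or_gt_of_ne hi.1 with h | h
    · rw [if_neg h.le.not_gt, if_pos h, zero_add]
    · rw [if_pos h, if_neg h.le.not_gt, add_zero]
  have h2 : G (σ.symm 0) = ({((0 : Fin 5), (0 : Fin (m + 1)))} +
      {((1 : Fin 5), (0 : Fin (m + 1)))}) + {((2 : Fin 5), σ.symm 0)} := by
    simp only [hG, Equiv.apply_symm_apply]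
  have h3 : ∑ i, G i = ((∑ i, {((0 : Fin 5), i)}) + (∑ i, {((1 : Fin 5), i)})) +
      ∑ i : Fin (m + 1), ({((2 : Fin 5), i)} : Multiset (Vr m)) := by
    simp only [hG]
    rw [Finset.sum_add_distrib, Finset.sum_add_distrib,
      Equiv.sum_comp σ fun i => ({((0 : Fin 5), i)} : Multiset (Vr m)),
      Equiv.sum_comp σ fun i => ({((1 : Fin 5), i)} : Multiset (Vr m))]
  have h4 : (Finset.univ : Finset (Vr m)).val =
      ∑ p : Vr m, ({p} : Multiset (Vr m)) := (Finset.sum_multiset_singleton _).symm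
  rw [h4, Fintype.sum_prod_type, Fin.sum_univ_five]
  have h5 : (({((2 : Fin 5), σ.symm 0)} + ∑ i, if σ.symm 0 < i then G i else 0) +
      (({((0 : Fin 5), (0 : Fin (m + 1)))} +
        ∑ i : Fin (m + 1), ({((3 : Fin 5), i)} + {((4 : Fin 5), i)})) +
        {((1 : Fin 5), (0 : Fin (m + 1)))})) + (∑ i, if i < σ.symm 0 then G i else 0) =
      (G (σ.symm 0) + ((∑ i, if σ.symm 0 < i then G i else 0) +
      ∑ i, if i < σ.symm 0 then G i else 0)) +
      ∑ i : Fin (m + 1), ({((3 : Fin 5), i)} + {((4 : Fin 5), i)} : Multiset (Vr m)) := by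
    rw [h2]
    abel
  rw [h5, h1, h3, Finset.sum_add_distrib]
  abel

theorem FF_mem : (fun x : Vr m → Mk k => FF x) ∈ PolM k (Vr m) (Finset.univ : Finset (Vr m)).val := by
  unfold FF rzT
  refine pol_sum _ _ _ fun σ _ => pol_zsmul ?_ _
  refine pol_congr ?_ (total σ)
  unfold rzR rzL
  refine pol_mul (pol_mul (pol_mul (pol_var _) (pol_prod (m + 1) (fun i x =>
    if σ.symm 0 < i then XX x (σ i) * x (2, i) else 1) _ fun i => ?_))
    (pol_mul (pol_mul (pol_var _) CC_mem) (pol_var _)))
    (pol_prod (m + 1) (fun i x => if i < σ.symm 0 then XX x (σ i) * x (2, i) else 1) _ fun i => ?_)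
  · split_ifs with h
    · exact pol_mul (XX_mem _) (pol_var _)
    · exact pol_one
  · split_ifs with h
    · exact pol_mul (XX_mem _) (pol_var _)
    · exact pol_one

/-- the slot `X 0` is not used -/
theorem rzT_update {A : Type} [Ring A] (X y : Fin (m + 1) → A) (z w : A) :
    rzT (Function.update X 0 z) y w = rzT X y w := by
  unfold rzT
  refine Finset.sum_congr rfl fun σ _ => ?_
  have hne : ∀ i, i ≠ σ.symm 0 → Function.update X 0 z (σ i) = X (σ i) := by
    intro i hi
    rw [Function.update_of_ne]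
    intro h
    apply hi
    rw [← h, Equiv.symm_apply_apply]
  have h1 : rzR (Function.update X 0 z) y σ = rzR X y σ := by
    unfold rzR
    congr 3
    funext i
    split_ifs with h
    · rw [hne i h.ne']
    · rfl
  have h2 : rzL (Function.update X 0 z) y σ = rzL X y σ := by
    unfold rzL
    congr 2
    funext i
    split_ifs with h
    · rw [hne i h.ne]
    · rfl
  rw [h1, h2]

theorem FF_alt (x : Vr m → Mk k) (i j : Fin (m + 1)) (hij : i ≠ j) (h : x (3, i) = x (3, j)) :
    FF x = 0 := by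
  have h1 : CC x = 0 := AlternatingMap.map_eq_zero_of_eq _ _ h hij
  unfold FF
  rw [h1, mul_zero, zero_mul]
  unfold rzT
  simp

theorem FF_scalar (hm : k * k = m + 1) (x : Vr m → Mk k) : ∃ c : ℝ, FF x = c • (1 : Mk k) := by
  obtain ⟨l, hl, -⟩ := rz_alt (K := ℝ) (j := k) (m := m) hm.le (XX x) (fun i => x (2, i)) (by
    intro i _
    unfold XX
    rw [Matrix.trace_sub, Matrix.trace_mul_comm, sub_self])
  refine ⟨l (x (0, 0) * CC x * x (1, 0)), ?_⟩
  unfold FF
  rw [hl, Algebra.algebraMap_eq_smul_one]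

theorem FF_ne (hk : 0 < k) (hm : k * k = m + 1) : ∃ x : Vr m → Mk k, FF x ≠ 0 := by
  let i0 : Fin k := ⟨0, hk⟩
  have hφ : Submodule.span ℝ (Set.range (RingHom.id (Mk k))) = ⊤ := by
    rw [RingHom.coe_id, Set.range_id, Submodule.span_univ]
  obtain ⟨b, hb0, hb⟩ := rz_basis hm (RingHom.id (Mk k)) hφ i0
  choose! u v huv using hb
  obtain ⟨y', hy'⟩ := rz_ne hm (RingHom.id (Mk k)) hφ b
  simp only [RingHom.id_apply] at hy' huv
  set X : Fin (m + 1) → Mk k := fun i => u i * v i - v i * u i with hX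
  have h1 : rzTl X y' 1 ≠ 0 := by
    intro h0
    apply hy'
    have h2 : (b : Fin (m + 1) → Mk k) = Function.update X 0 (Matrix.single i0 i0 1) := by
      funext i
      by_cases hi : i = 0
      · subst hi; simp [hb0]
      · rw [Function.update_of_ne hi]
        exact huv i hi
    have h3 : rzT X y' 1 = 0 := h0
    rw [h2, ← mul_one (rzCap _ _), rz_trace, h3, mul_zero, Matrix.trace_zero]
  have hcard : Fintype.card (Fin k × Fin k) = Fintype.card (Fin (m + 1)) := by simp [hm]
  let ε : Fin (m + 1) ≃ Fin k × Fin k := (Fintype.equivOfCardEq hcard).symm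
  obtain ⟨y, hy⟩ := rz_unit (K := ℝ) ε
  set x : Fin (m + 1) → Mk k := fun p => Matrix.single (ε p).1 (ε p).2 1 with hx
  set C : Mk k := rzCap y x with hC
  have hC0 : C ≠ 0 := by
    intro h
    rw [h, Matrix.trace_zero] at hy
    exact hy rfl
  obtain ⟨r, s, hrs⟩ : ∃ r s, C r s ≠ 0 := by
    by_contra hcon
    push Not at hcon
    exact hC0 (by ext1 r s; exact hcon r s)
  obtain ⟨i, hi⟩ : ∃ i : Fin k, rzTl X y' (Matrix.single i r 1 * C * Matrix.single s i 1) ≠ 0 := by
    by_contra hcon
    push Not at hcon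
    apply h1
    have h2 : (1 : Mk k) = ∑ i, (C r s)⁻¹ • (Matrix.single i r 1 * C * Matrix.single s i 1) := by
      have h3 : ∀ i : Fin k, (C r s)⁻¹ • (Matrix.single i r 1 * C * Matrix.single s i 1 : Mk k) =
          Matrix.single i i 1 := by
        intro i
        rw [Matrix.single_mul_mul_single, Matrix.smul_single]
        congr 1
        simp [hrs]
      rw [Finset.sum_congr rfl fun i _ => h3 i]
      exact (Matrix.sum_single_one).symm
    rw [h2, map_sum]
    refine Finset.sum_eq_zero fun i _ => ?_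
    rw [map_smul, hcon i, smul_zero]
  set pt : Vr m → Mk k := fun p => match p.1 with
    | 0 => if p.2 = 0 then Matrix.single i r 1 else u p.2
    | 1 => if p.2 = 0 then Matrix.single s i 1 else v p.2
    | 2 => y' p.2
    | 3 => x p.2
    | 4 => y p.2 with hpt
  have p0 : pt (0, 0) = Matrix.single i r 1 := if_pos rfl
  have p1 : pt (1, 0) = Matrix.single s i 1 := if_pos rfl
  have pC : CC pt = C := rfl
  have p2 : (fun j => pt (2, j)) = y' := rfl
  have hfin : Function.update (XX pt) 0 0 = Function.update X 0 0 := by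
    funext j
    by_cases hj : j = 0
    · subst hj; simp
    · rw [Function.update_of_ne hj, Function.update_of_ne hj]
      simp only [XX, hX, hpt, if_neg hj]
  refine ⟨pt, ?_⟩
  unfold FF
  rw [p0, p1, pC, p2, ← rzT_update _ _ 0, hfin, rzT_update]
  exact hi

end poly

theorem t_RAZ : S_RAZ := by
  intro k hk
  obtain ⟨m, hm⟩ : ∃ m, k * k = m + 1 :=
    ⟨k * k - 1, by have := Nat.mul_pos hk hk; omega⟩
  let e : Vr m ≃ Fin (Fintype.card (Vr m)) := Fintype.equivFin (Vr m)
  refine ⟨Fintype.card (Vr m), fun i => e (3, Fin.cast hm i), fun x => FF (fun a => x (e a)),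
    ?_, ?_, ?_, ?_, ?_⟩
  · intro i j hij
    have := e.injective hij
    simp only [Prod.mk.injEq, true_and] at this
    exact Fin.cast_injective hm this
  · have h1 := pol_map (k := k) e (FF_mem (k := k) (m := m))
    refine pol_congr h1 ?_
    have h2 := congrArg Finset.val (Finset.map_univ_equiv e)
    rw [Finset.map_val] at h2
    exact h2
  · obtain ⟨x, hx⟩ := FF_ne hk hm
    intro h
    apply hx
    have h1 := congrFun h (fun i => x (e.symm i))
    simpa using h1
  · intro x i j hij h
    exact FF_alt _ (Fin.cast hm i) (Fin.cast hm j) (fun h' => hij (Fin.cast_injective hm h')) h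
  · intro x
    exact FF_scalar hm _

end Pool.Agent.N572.CZ.RAZ
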